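import Mathlib

namespace Pool.Agent.Results.MP_446ff5_lc.Q1

open Finset

/-- Quantifier-free formulas with equality and one binary relation symbol, variables in `V`. -/
inductive QF (V : Type)
  | eq : V → V → QF V
  | rel : V → V → QF V
  | not : QF V → QF V
  | and : QF V → QF V → QF V

/-- Truth of a formula when the symbol is read as `r` and the variables as `v`. -/
def QF.Holds {V P : Type} (r : P → P → Prop) (v : V → P) : QF V → Prop
  | eq a b => v a = v b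
  | rel a b => r (v a) (v b)
  | not f => ¬ f.Holds r v
  | and f g => f.Holds r v ∧ g.Holds r v

variable {F : Type} [Field F] [LinearOrder F] [IsStrictOrderedRing F] {n : ℕ}

/-- The Minkowski interval in dimension `n + 1`; coordinate `0` is time. -/
def mu (x y : Fin (n + 1) → F) : F := (x 0 - y 0) ^ 2 - ∑ i : Fin n, (x i.succ - y i.succ) ^ 2

/-- Lightlike relatedness. -/
def lam (x y : Fin (n + 1) → F) : Prop := mu x y = 0 ∧ x ≠ y

def B : (Fin (n + 1) → F) →ₗ[F] (Fin (n + 1) → F) →ₗ[F] F :=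
  LinearMap.mk₂ F (fun x y => x 0 * y 0 - ∑ i : Fin n, x i.succ * y i.succ)
    (by intros; simp [add_mul, sum_add_distrib]; ring) (by intros; simp [mul_assoc, ← mul_sum]; ring)
    (by intros; simp [mul_add, sum_add_distrib]; ring) (by intros; simp [mul_left_comm, ← mul_sum]; ring)

lemma sy (x y : Fin (n + 1) → F) : B x y = B y x := by simp [B, mul_comm]

lemma muB (x y : Fin (n + 1) → F) : mu x y = B (x - y) (x - y) := by
  simp only [B, mu, sq, LinearMap.mk₂_apply, Pi.sub_apply]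

lemma sp (w : Fin (n + 1) → F) (h : w 0 = 0) : B w w ≤ 0 ∧ (B w w = 0 → w = 0) := by
  have p (i : Fin n) (_ : i ∈ univ) := mul_self_nonneg (w i.succ)
  refine ⟨by simpa [B, h] using sum_nonneg p, fun e => funext (Fin.cases h fun i => ?_)⟩
  exact mul_self_eq_zero.1 ((sum_eq_zero_iff_of_nonneg p).1 (by simpa [B, h] using e) i (mem_univ _))

lemma orth {l e : Fin (n + 1) → F} (a : 0 ≤ B l l) (l0 : l ≠ 0) (o : B l e = 0) :
    B e e ≤ 0 ∧ (B e e = 0 → (0 < B l l → e = 0) ∧ ∃ t : F, e = t • l) := by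
  have t : l 0 ≠ 0 := fun h => l0 ((sp l h).2 ((sp l h).1.antisymm a))
  obtain ⟨p, q⟩ := sp (l 0 • e - e 0 • l) (by simp [mul_comm])
  simp only [map_sub, map_smul, LinearMap.sub_apply, LinearMap.smul_apply, smul_eq_mul, o, sy e l] at p q
  have u := mul_self_pos.2 t
  have v := mul_nonneg (mul_self_nonneg (e 0)) a
  refine ⟨by nlinarith, fun z => ?_⟩
  have q := sub_eq_zero.1 (q (by rw [z] at p ⊢; nlinarith))
  have E : e = (e 0 / l 0) • l := by rw [div_eq_inv_mul, mul_smul, ← q, inv_smul_smul₀ t]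
  refine ⟨fun h => ?_, _, E⟩
  have : e 0 * e 0 * B l l = 0 := by rw [z] at p; nlinarith
  rw [E, show e 0 = 0 by simpa [h.ne'] using this]; simp

lemma col {l e : Fin (n + 1) → F} (a : B l l = 0) (l0 : l ≠ 0) (b : B e e = 0)
    (c : B (e - l) (e - l) = 0) : ∃ t : F, e = t • l :=
  ((orth a.ge l0 (by simp [a, b, sy e l] at c; linarith)).2 b).2

lemma hyp {l q : Fin (n + 1) → F} (a : B l l = 0) (h : ∀ t : F, B (t • l - q) (t • l - q) ≠ 0) :
    B l q = 0 ∧ B q q ≠ 0 :=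
  ⟨by_contra fun c => h (B q q / (2 * B l q)) (by simp [a, sy q l]; field_simp; ring), by simpa using h 0⟩

lemma ex (hn : 2 ≤ n) (sq : ∀ a : F, 0 ≤ a → ∃ b, b * b = a) {d : Fin (n + 1) → F} (h : 0 < B d d) (g) :
    ∃ f, B d f = 0 ∧ B g f = 0 ∧ B f f = -B d d := by
  obtain ⟨f, a, b⟩ := (Submodule.ne_bot_iff _).1 (LinearMap.ker_ne_bot_of_finrank_lt
    (f := (B d).prod (B g)) (by simp; omega))
  simp at a
  obtain ⟨p, q⟩ := orth h.le (by rintro rfl; simp at h) a.1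
  have p := p.lt_of_ne fun z => b ((q z).1 h)
  obtain ⟨s, e⟩ := sq (B d d / -B f f) (div_nonneg h.le (by linarith))
  refine ⟨s • f, by simp [a], by simp [a], ?_⟩
  simp only [map_smul, LinearMap.smul_apply, smul_eq_mul, ← mul_assoc, e]
  field_simp [p.ne]

def N (a b : Fin 12) : QF (Fin 12) := .not (.and (.not (.eq a b)) (.not (.rel a b)))

lemma hN (v : Fin 12 → Fin (n + 1) → F) (a b) : (N a b).Holds lam v ↔ B (v a - v b) (v a - v b) = 0 := by
  simp only [N, QF.Holds, lam, muB]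
  exact ⟨fun h => by_contra fun c => h ⟨fun e => c (by simp [e]), fun e => c e.1⟩, fun h c => c.2 ⟨h, c.1⟩⟩

lemma hR (v : Fin 12 → Fin (n + 1) → F) (a b) :
    (QF.rel a b).Holds lam v ↔ B (v a - v b) (v a - v b) = 0 ∧ v a - v b ≠ 0 := by
  simp only [QF.Holds, lam, muB, sub_ne_zero]

def psi : QF (Fin 12) :=
  .and (.rel 0 2) <| .and (N 1 2) <| .and (N 3 2) <| .and (N 3 0) <| .and (.rel 5 4) <|
  .and (N 6 4) <| .and (N 7 4) <| .and (.rel 6 7) <| .and (N 8 5) <| .and (N 9 5) <| .and (.rel 8 9) <|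
  .and (N 6 0) <| .and (N 8 6) <| .and (N 8 2) <| .and (N 7 2) <| .and (N 9 7) <| .and (N 9 3) <|
  .and (.rel 10 3) <| .and (.not (.and (.and (N 11 2) (N 11 0)) (N 11 4))) <|
  .and (.not (.and (.and (N 11 2) (N 11 0)) (N 11 5))) (.not (.and (.and (N 11 3) (N 11 10)) (N 11 1)))

theorem result : ∃ (k m : ℕ) (ψ : QF (Fin (2 + k + m))), ∀ n ≥ 2, ∀ (F : Type) [Field F] [LinearOrder F]
    [IsStrictOrderedRing F], (∀ a : F, 0 ≤ a → ∃ b, b * b = a) → ∀ x y : Fin (n + 1) → F,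
      (∃ u : Fin k → Fin (n + 1) → F, ∀ v : Fin m → Fin (n + 1) → F,
        ψ.Holds lam (Fin.append (Fin.append ![x, y] u) v)) ↔ 0 < mu x y := by
  refine ⟨9, 1, psi, fun n hn F _ _ _ sq x y => ?_⟩
  have E (u : Fin 9 → Fin (n + 1) → F) (v : Fin 1 → Fin (n + 1) → F) : Fin.append (Fin.append ![x, y] u) v =
      ![x, y, u 0, u 1, u 2, u 3, u 4, u 5, u 6, u 7, u 8, v 0] := by funext i; fin_cases i <;> rfl
  simp only [E]
  change (∃ u : Fin 9 → _, ∀ v : Fin 1 → _, QF.Holds (V := Fin 12) lam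
    ![x, y, u 0, u 1, u 2, u 3, u 4, u 5, u 6, u 7, u 8, v 0] psi) ↔ _
  clear E
  simp only [psi, QF.Holds.eq_3, QF.Holds.eq_4, hN, hR, muB, Matrix.cons_val]
  refine ⟨fun ⟨u, h⟩ => ?_, fun h => ?_⟩
  · generalize u 0 = a, u 1 = x', u 2 = p, u 3 = p', u 4 = m, u 5 = m', u 6 = r, u 7 = r', u 8 = z at h
    have X (a b : Fin (n + 1) → F) : ∃ c, b = a + c := ⟨b - a, by simp⟩
    obtain ⟨l, rfl⟩ := X a x
    obtain ⟨k, rfl⟩ := X a y
    obtain ⟨x', rfl⟩ := X a x'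
    obtain ⟨q, rfl⟩ := X a p
    obtain ⟨q', rfl⟩ := X (a + q) p'
    obtain ⟨m, rfl⟩ := X (a + q) m
    obtain ⟨v, rfl⟩ := X (a + q) m'
    obtain ⟨r, rfl⟩ := X (a + q + q') r
    obtain ⟨w, rfl⟩ := X (a + q + q') r'
    obtain ⟨z, rfl⟩ := X (a + x') z
    have U (t : F) := (h fun _ => a + t • l).2.2.2.2.2.2.2.2.2.2.2.2.2.2.2.2.2.2
    have V (t : F) := (h fun _ => a + x' + t • z).2.2.2.2.2.2.2.2.2.2.2.2.2.2.2.2.2.2.2.2
    obtain ⟨⟨h1, l0⟩, h2, h3, h4, ⟨h5, c0⟩, h6, h7, ⟨s0, s1⟩, h8, h9, ⟨r0, r1⟩, e1, e2, e3, e4, e5, e6,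
      ⟨hz, z0⟩, -⟩ := h 0
    simp only [add_assoc, add_sub_add_left_eq_sub, add_sub_cancel_left] at *
    obtain ⟨a1, a2⟩ := hyp h1 fun t c => (U t).1 ⟨by simp [h1], c⟩
    obtain ⟨a3, a4⟩ := hyp h1 fun t c => (U t).2.1 ⟨by simp [h1], c⟩
    obtain ⟨a5, a6⟩ := hyp (q := k - x') hz fun t c => V t ⟨by simp [hz], by rwa [show x' + t • z - k = t • z - (k - x') by abel]⟩
    obtain ⟨t, rfl⟩ := col h1 l0 h3 h4
    obtain ⟨c, rfl⟩ := ((orth h1.ge l0 (by simpa [a1] using a3)).2 h5).2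
    obtain ⟨σ, rfl⟩ := col h7 (by rintro rfl; simp [a2] at e4) h6 s0
    obtain ⟨ρ, rfl⟩ := col h9 (by
      rintro rfl; simp [h1, a1, sy q l, a2] at e6) h8 r0
    have b := ((orth hz.ge z0 a5).1).lt_of_ne a6
    have σ1 : σ - 1 ≠ 0 := fun e => s1 (by simp [sub_eq_zero.1 e])
    have ρ1 : ρ - 1 ≠ 0 := fun e => r1 (by simp [sub_eq_zero.1 e])
    have c1 : c ≠ 0 := by rintro rfl; simp at c0
    simp only [map_add, map_sub, map_smul, LinearMap.add_apply, LinearMap.sub_apply, LinearMap.smul_apply,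
      smul_eq_mul, h1, h2, h7, h9, a1, sy q l, sy v l, sy w l, sy v q, sy w q, sy w v, sy k l] at *
    have A : B q q * (σ - 1) = -2 * σ * B l v := by linear_combination σ * e4 - e1
    have C : B q q * (ρ - 1) = 2 * ρ * t * B l w := by linear_combination ρ * e6 - e3
    have D : ρ * B l w * (σ - 1) = σ * B l v * (ρ - 1) :=
      mul_left_cancel₀ (mul_ne_zero two_ne_zero c1) (by linear_combination σ * ρ * e5 - e2)
    have G : ρ * B l w ≠ 0 := fun e => mul_ne_zero a2 ρ1 (by linear_combination C + 2 * t * e)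
    have : B q q * (σ - 1) * (ρ * B l w) * (t + 1) = 0 := by
      linear_combination B q q * D + σ * B l v * C + t * ρ * B l w * A
    obtain rfl : t = -1 := by simpa [a2, σ1, G, add_eq_zero_iff_eq_neg] using this
    linarith
  · obtain ⟨f, f1, -, f2⟩ := ex hn sq h 0
    obtain ⟨g, g1, g2, g3⟩ := ex hn sq h f
    obtain ⟨d, rfl⟩ : ∃ d, y = x - d := ⟨x - y, by simp⟩
    rw [sub_sub_cancel] at *
    let P (a b c : F) := x + (a • -d + b • f + c • g)
    have K (a b c a' b' c') : B (P a b c - P a' b' c') (P a b c - P a' b' c') =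
        B d d * ((a - a') ^ 2 - (b - b') ^ 2 - (c - c') ^ 2) := by
      simp [P, f1, f2, g1, g2, g3, sy f d, sy g d, sy g f]; ring
    have Z (a b c a' b' c') (e : a ≠ a') : P a b c - P a' b' c' ≠ 0 := fun z => by
      have := congrArg (B d) z
      simp [P, f1, g1] at this
      exact e (mul_right_cancel₀ h.ne' (by linarith))
    have L (a b c a' b' c' u) (e : a' ≠ a) (o : (a' - a) ^ 2 - (b' - b) ^ 2 - (c' - c) ^ 2 = 0)
        (i : B (u - P a b c) (u - P a b c) = 0 ∧ B (u - P a' b' c') (u - P a' b' c') = 0) :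
        ∃ t, u = P (a + t * (a' - a)) (b + t * (b' - b)) (c + t * (c' - c)) := by
      obtain ⟨t, e⟩ := col (by rw [K, o, mul_zero]) (Z _ _ _ _ _ _ e) i.1 (by rw [sub_sub_sub_cancel_right, i.2])
      exact ⟨t, by rw [sub_eq_iff_eq_add.1 e]; simp only [P]; module⟩
    refine ⟨![P (1 / 2) (1 / 2) 0, P 1 1 0, P 1 1 1, P (3 / 2) (3 / 2) 1, P (5 / 4) (3 / 4) 1,
      P (3 / 2) (1 / 2) 1, P (7 / 4) (5 / 4) 1, P 2 1 1, P 2 1 1], fun v => ?_⟩
    rw [show x - d = P 1 0 0 by simp [P, sub_eq_add_neg]]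
    rw [show x = P 0 0 0 by simp [P]]
    simp only [Matrix.cons_val, K]
    refine ⟨⟨?_, Z _ _ _ _ _ _ ?_⟩, ?_, ?_, ?_, ⟨?_, Z _ _ _ _ _ _ ?_⟩, ?_, ?_, ⟨?_, Z _ _ _ _ _ _ ?_⟩, ?_, ?_,
      ⟨?_, Z _ _ _ _ _ _ ?_⟩, ?_, ?_, ?_, ?_, ?_, ?_, ⟨?_, Z _ _ _ _ _ _ ?_⟩, ?_⟩
    iterate 23 norm_num
    refine ⟨?_, ?_, ?_⟩ <;> rintro ⟨i, j⟩ <;>
      obtain ⟨t, e⟩ := L _ _ _ _ _ _ _ (by norm_num) (by norm_num) i <;> rw [e, K] at j <;> linarith

end Pool.Agent.Results.MP_446ff5_lc.Q1
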